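import Pool.Agent.H58.Nij5

namespace Pool.Agent.Results.MP_17a4b7_gt.Realisable
open Pool.Agent.H58.Nij Matrix
open scoped ContDiff

theorem result (n : ℕ) (A : Matrix (Fin n) (Fin n) ℝ) (hA : A.charpoly.Splits) :
    ∃ L : (Fin n → ℝ) → (Fin n → ℝ) →L[ℝ] (Fin n → ℝ),
      ContDiff ℝ ∞ L ∧ HasCompactSupport L ∧ IsNijenhuis L ∧
      ∃ U : Set (Fin n → ℝ), IsOpen U ∧ IsConnected U ∧
        ∀ x ∈ U, ∃ P : (Fin n → ℝ) ≃L[ℝ] (Fin n → ℝ), ∀ v, P (L x v) = A *ᵥ P v := by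
  obtain ⟨L, h1, h2, h3, x₀, h4⟩ := real_all n (Fin n → ℝ) (Matrix.toLin' A) (by simp)
    (by rw [Matrix.charpoly_toLin']; exact hA)
  obtain ⟨r, hr, h5⟩ := Metric.eventually_nhds_iff_ball.1 h4
  refine ⟨L, h1, h2, nij_of_TZ h1 h3, Metric.ball x₀ r, Metric.isOpen_ball,
    Metric.isConnected_ball hr, fun x hx => ?_⟩
  obtain ⟨P, hP⟩ := h5 x hx
  exact ⟨P, fun v => by simpa using hP v⟩

end Pool.Agent.Results.MP_17a4b7_gt.Realisable
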